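import Pool.Agent.H71.CO.Targets

/-!
# Two variables, counting quantifiers and a linear order: the types of pairs
-/

set_option autoImplicit false

open Set

namespace Pool.Agent.H39.CO

open Pool.Agent.H71.CQ (Formula Holds upd0 upd1)
open Pool.Agent.H71.CO (Tru Stb T_TYP)

variable {C : Type} [MeasurableSpace C]

/-- exchange of the variables -/
def swp : Formula C → Formula C
  | .label B hB i j => .label B hB (1 - i) (1 - j)
  | .equal i j => .equal (1 - i) (1 - j)
  | .not φ => .not (swp φ)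
  | .conj φ => .conj fun n => swp (φ n)
  | .cnt n i φ => .cnt n (1 - i) (swp φ)

theorem upd_sw (v : Fin 2 → ℕ) (i : Fin 2) (a : ℕ) :
    (fun j => Function.update v (1 - i) a (1 - j)) =
      Function.update (fun j => v (1 - j)) i a := by
  funext j
  fin_cases i <;> fin_cases j <;> rfl

theorem holds_swp (x : (Fin 2 → ℕ) → C) (φ : Formula C) :
    ∀ v : Fin 2 → ℕ, Holds x (swp φ) v ↔ Holds x φ fun i => v (1 - i) := by
  induction φ with
  | label B hB i j => intro v; exact Iff.rfl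
  | equal i j => intro v; exact Iff.rfl
  | not φ ih => intro v; exact not_congr (ih v)
  | conj φ ih => intro v; exact forall_congr' fun n => ih n v
  | cnt n i φ ih =>
    intro v
    have h : {a | Holds x (swp φ) (Function.update v (1 - i) a)} =
        {a | Holds x φ (Function.update (fun j => v (1 - j)) i a)} := by
      ext a
      simp only [mem_setOf_eq]
      rw [ih, upd_sw]
    show (n : ℕ∞) ≤ {a | Holds x (swp φ) (Function.update v (1 - i) a)}.encard ↔
      (n : ℕ∞) ≤ {a | Holds x φ (Function.update (fun j => v (1 - j)) i a)}.encard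
    rw [h]

theorem tru_swp (x : ℕ → ℕ → C) (φ : Formula C) (a b : ℕ) :
    Tru x (swp φ) a b ↔ Tru x φ b a := by
  unfold Tru
  rw [holds_swp]
  have : (fun i : Fin 2 => (![a, b] : Fin 2 → ℕ) (1 - i)) = ![b, a] := by
    funext i
    fin_cases i <;> rfl
  rw [this]

/-- conjunction of two formulas -/
def and2 (f g : Formula C) : Formula C := .conj fun n => if n = 0 then f else g

theorem tru_and2 (x : ℕ → ℕ → C) (f g : Formula C) (a b : ℕ) :
    Tru x (and2 f g) a b ↔ Tru x f a b ∧ Tru x g a b := by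
  constructor
  · intro h
    have h0 := h 0
    have h1 := h 1
    simp only [if_true] at h0
    simp only [one_ne_zero, if_false] at h1
    exact ⟨h0, h1⟩
  · rintro ⟨h0, h1⟩ n
    by_cases hn : n = 0
    · simp only [hn, if_true]
      exact h0
    · simp only [hn, if_false]
      exact h1

theorem tru_cnt1 (x : ℕ → ℕ → C) (n : ℕ) (f : Formula C) (a b : ℕ) :
    Tru x (.cnt n 1 f) a b ↔ (n : ℕ∞) ≤ {c | Tru x f a c}.encard := by
  have h : {c | Holds (fun v : Fin 2 → ℕ => x (v 0) (v 1)) f (Function.update ![a, b] 1 c)} =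
      {c | Tru x f a c} := by
    ext c
    simp only [mem_setOf_eq]
    rw [upd1]
    rfl
  show (n : ℕ∞) ≤
    {c | Holds (fun v : Fin 2 → ℕ => x (v 0) (v 1)) f (Function.update ![a, b] 1 c)}.encard ↔ _
  rw [h]

/-- the formula at the diagonal -/
def dgf (f : Formula C) : Formula C := .cnt 1 1 (and2 (.equal 0 1) f)

theorem tru_equal (x : ℕ → ℕ → C) (a b : ℕ) : Tru x (.equal 0 1 : Formula C) a b ↔ a = b :=
  Iff.rfl

theorem tru_dgf (x : ℕ → ℕ → C) (f : Formula C) (a b : ℕ) :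
    Tru x (dgf f) a b ↔ Tru x f a a := by
  unfold dgf
  rw [tru_cnt1]
  have h : ((1 : ℕ) : ℕ∞) = 1 := rfl
  rw [h, Set.one_le_encard_iff_nonempty]
  constructor
  · rintro ⟨c, hc⟩
    simp only [mem_setOf_eq] at hc
    rw [tru_and2, tru_equal] at hc
    obtain ⟨h1, h2⟩ := hc
    rw [← h1] at h2
    exact h2
  · intro h
    refine ⟨a, ?_⟩
    simp only [mem_setOf_eq]
    rw [tru_and2, tru_equal]
    exact ⟨rfl, h⟩

/-- same type -/
def stp (x : ℕ → ℕ → C) : Setoid (ℕ × ℕ) where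
  r p q := ∀ ψ : Formula C, Tru x ψ p.1 p.2 ↔ Tru x ψ q.1 q.2
  iseqv := ⟨fun _ _ => Iff.rfl, fun h ψ => (h ψ).symm, fun h h' ψ => (h ψ).trans (h' ψ)⟩

theorem sep (x : ℕ → ℕ → C) (p q : ℕ × ℕ)
    (h : ¬ ∀ ψ : Formula C, Tru x ψ p.1 p.2 ↔ Tru x ψ q.1 q.2) :
    ∃ ψ : Formula C, Tru x ψ p.1 p.2 ∧ ¬ Tru x ψ q.1 q.2 := by
  push_neg at h
  obtain ⟨ψ, hψ⟩ := h
  rcases hψ with ⟨h1, h2⟩ | ⟨h1, h2⟩
  · exact ⟨ψ, h1, h2⟩
  · exact ⟨.not ψ, h1, fun h3 => h3 h2⟩

/-- every type is given by a formula -/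
theorem chi (x : ℕ → ℕ → C) (p : ℕ × ℕ) :
    ∃ χ : Formula C, ∀ a b, Tru x χ a b ↔
      ∀ ψ : Formula C, Tru x ψ a b ↔ Tru x ψ p.1 p.2 := by
  classical
  have h : ∀ q : ℕ × ℕ, ∃ ψ : Formula C, Tru x ψ p.1 p.2 ∧
      ((¬ ∀ ψ : Formula C, Tru x ψ p.1 p.2 ↔ Tru x ψ q.1 q.2) → ¬ Tru x ψ q.1 q.2) := by
    intro q
    by_cases hq : ∀ ψ : Formula C, Tru x ψ p.1 p.2 ↔ Tru x ψ q.1 q.2
    · refine ⟨.conj fun _ => .equal 0 0, fun _ => rfl, fun h => absurd hq h⟩
    · obtain ⟨ψ, h1, h2⟩ := sep x p q hq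
      exact ⟨ψ, h1, fun _ => h2⟩
  choose F hF1 hF2 using h
  refine ⟨.conj fun n => F (Nat.unpair n), fun a b => ⟨fun hab => ?_, fun hab => ?_⟩⟩
  · by_contra hne
    have hq : ¬ ∀ ψ : Formula C, Tru x ψ p.1 p.2 ↔ Tru x ψ (a, b).1 (a, b).2 :=
      fun h => hne fun ψ => (h ψ).symm
    have := hF2 (a, b) hq
    apply this
    have h1 := hab (Nat.pair a b)
    simp only [Nat.unpair_pair] at h1
    exact h1
  · intro n
    exact (hab (F (Nat.unpair n))).2 (hF1 _)

theorem pf_TYP : T_TYP := by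
  intro C _ _ x
  refine ⟨Quotient (stp x), inferInstance, fun a b => Quotient.mk (stp x) (a, b), ?_, ?_, ?_⟩
  · refine ⟨fun a b a' b' h => ?_, fun a b a' b' h => ?_, fun a a' b' h => ?_,
      fun a a' h l => ?_⟩
    · have h1 : ∀ ψ : Formula C, Tru x ψ a b ↔ Tru x ψ a' b' := Quotient.exact h
      apply Quotient.sound
      intro ψ
      have := h1 (swp ψ)
      rw [tru_swp, tru_swp] at this
      exact this
    · have h1 : ∀ ψ : Formula C, Tru x ψ a b ↔ Tru x ψ a' b' := Quotient.exact h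
      apply Quotient.sound
      intro ψ
      have := h1 (dgf ψ)
      rw [tru_dgf, tru_dgf] at this
      exact this
    · have h1 : ∀ ψ : Formula C, Tru x ψ a a ↔ Tru x ψ a' b' := Quotient.exact h
      exact (h1 (.equal 0 1)).1 rfl
    · have h1 : ∀ ψ : Formula C, Tru x ψ a a ↔ Tru x ψ a' a' := Quotient.exact h
      obtain ⟨p, hp⟩ := Quotient.exists_rep l
      obtain ⟨χ, hχ⟩ := chi x p
      have key : ∀ a0, {b | Quotient.mk (stp x) (a0, b) = l} = {b | Tru x χ a0 b} := by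
        intro a0
        ext b
        simp only [mem_setOf_eq]
        rw [← hp, hχ]
        exact ⟨fun h => Quotient.exact h, fun h => Quotient.sound h⟩
      rw [key a, key a']
      apply ENat.eq_of_forall_natCast_le_iff
      intro n
      have h2 := h1 (.cnt n 1 χ)
      rw [tru_cnt1, tru_cnt1] at h2
      exact h2
  · intro a b a' b'
    exact ⟨fun h => Quotient.exact h, fun h => Quotient.sound h⟩
  · intro a b a' b' h
    have h1 : ∀ ψ : Formula C, Tru x ψ a b ↔ Tru x ψ a' b' := Quotient.exact h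
    exact ((h1 (.label {x a b} (measurableSet_singleton _) 0 1)).1 rfl).symm

end Pool.Agent.H39.CO
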